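import Pool.Agent.V11142.PathFourC

/-!
# The linear Turán number of the expansion of the path with four edges

Every linear `r`-uniform hypergraph on `n` vertices without a copy of `P_4^r` has at most
`(r+1)n/r` hyperedges, with equality exactly for vertex-disjoint unions of Steiner systems
`S(2,r,r^2)`.
-/

set_option autoImplicit false

namespace Pool.Agent.Results.MP_d43ba4_co.PathFourEdges

open Finset

variable {V : Type*} [Fintype V] [DecidableEq V]

/-- `E` is the edge set of an `r`-uniform hypergraph on `V`. -/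
def Uniform (r : ℕ) (E : Finset (Finset V)) : Prop := ∀ e ∈ E, e.card = r

/-- Any two distinct hyperedges share at most one vertex. -/
def Linear (E : Finset (Finset V)) : Prop := ∀ e ∈ E, ∀ f ∈ E, e ≠ f → (e ∩ f).card ≤ 1

/-- The vertices of `P_4^r`: the five vertices of the path `P_4`, and `r - 2` new vertices for
each of its four edges. -/
abbrev PathVertex (r : ℕ) : Type := Fin 5 ⊕ (Fin 4 × Fin (r - 2))

/-- The hyperedges of `P_4^r`: the `i`-th one consists of the vertices `i` and `i + 1` of the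
path and of the `r - 2` new vertices of the `i`-th edge. -/
def pathEdge (r : ℕ) (i : Fin 4) : Finset (PathVertex r) :=
  {Sum.inl i.castSucc, Sum.inl i.succ} ∪ univ.image fun j : Fin (r - 2) => Sum.inr (i, j)

/-- `E` contains a copy of `P_4^r`. -/
def ContainsPath (r : ℕ) (E : Finset (Finset V)) : Prop :=
  ∃ φ : PathVertex r → V, Function.Injective φ ∧ ∀ i : Fin 4, (pathEdge r i).image φ ∈ E

/-- The linear Turán number of `P_4^r`. -/
noncomputable def exLin (r n : ℕ) : ℕ :=
  sSup {m | ∃ E : Finset (Finset (Fin n)),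
    Uniform r E ∧ Linear E ∧ ¬ ContainsPath r E ∧ E.card = m}

/-- The vertex set is partitioned into blocks of size `r^2`, each spanning a copy of the Steiner
system `S(2,r,r^2)`, and there are no other hyperedges. -/
def IsSteinerUnion (r : ℕ) (E : Finset (Finset V)) : Prop :=
  ∃ P : Finpartition (univ : Finset V),
    (∀ B ∈ P.parts, B.card = r ^ 2 ∧
      ∀ x ∈ B, ∀ y ∈ B, x ≠ y → ∃! e, e ∈ E ∧ e ⊆ B ∧ x ∈ e ∧ y ∈ e) ∧
    ∀ e ∈ E, ∃ B ∈ P.parts, e ⊆ B

open Pool.Agent.V11142.PathFour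

theorem containsPath_of_hasP4 {r : ℕ} (hr : 2 ≤ r) {E : Finset (Finset V)} (hU : Uniform r E)
    (hL : Linear E) (h : HasP4 (fun e f : Finset V => ¬ Disjoint e f) E) : ContainsPath r E := by
  obtain ⟨a, ha, b, hb, c, hc, d, hd, hab, hac, had, hbc, hbd, hcd, h1, h2, h3, h4, h5, h6⟩ := h
  rw [not_not] at h4 h5 h6
  obtain ⟨x1, hx1a, hx1b⟩ := not_disjoint_iff.1 h1
  obtain ⟨x2, hx2b, hx2c⟩ := not_disjoint_iff.1 h2
  obtain ⟨x3, hx3c, hx3d⟩ := not_disjoint_iff.1 h3
  have hac' := disjoint_left.1 h4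
  have had' := disjoint_left.1 h5
  have hbd' := disjoint_left.1 h6
  -- uniqueness of the common points
  have huniq : ∀ e ∈ E, ∀ f ∈ E, e ≠ f → ∀ x y, x ∈ e → x ∈ f → y ∈ e → y ∈ f → x = y := by
    intro e he f hf hne x y hxe hxf hye hyf
    have := hL e he f hf hne
    rw [card_le_one] at this
    exact this x (mem_inter.2 ⟨hxe, hxf⟩) y (mem_inter.2 ⟨hye, hyf⟩)
  have hexa : ∃ x0 ∈ a, x0 ≠ x1 := by
    apply exists_mem_ne
    rw [hU a ha]; omega
  have hexd : ∃ x4 ∈ d, x4 ≠ x3 := by
    apply exists_mem_ne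
    rw [hU d hd]; omega
  obtain ⟨x0, hx0a, hx01⟩ := hexa
  obtain ⟨x4, hx4d, hx43⟩ := hexd
  have hx0b : x0 ∉ b := fun h => hx01 (huniq a ha b hb hab x0 x1 hx0a h hx1a hx1b)
  have hx4c : x4 ∉ c := fun h => hx43 (huniq c hc d hd hcd x4 x3 h hx4d hx3c hx3d)
  -- the data
  let X : Fin 5 → V := ![x0, x1, x2, x3, x4]
  let e : Fin 4 → Finset V := ![a, b, c, d]
  have heE : ∀ i, e i ∈ E := by
    intro i; fin_cases i <;> simpa [e]
  have hXl : ∀ i : Fin 4, X i.castSucc ∈ e i := by
    intro i; fin_cases i <;> simpa [e, X]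
  have hXr : ∀ i : Fin 4, X i.succ ∈ e i := by
    intro i; fin_cases i <;> simpa [e, X]
  have hx0c : x0 ∉ c := hac' hx0a
  have hx0d : x0 ∉ d := had' hx0a
  have hx1c : x1 ∉ c := hac' hx1a
  have hx1d : x1 ∉ d := had' hx1a
  have hx2a : x2 ∉ a := fun h => hac' h hx2c
  have hx2d : x2 ∉ d := hbd' hx2b
  have hx3a : x3 ∉ a := fun h => hac' h hx3c
  have hx3b : x3 ∉ b := fun h => hbd' h hx3d
  have hx4a : x4 ∉ a := fun h => had' h hx4d
  have hx4b : x4 ∉ b := fun h => hbd' h hx4d
  have hXinj : Function.Injective X := by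
    have h01 : x0 ≠ x1 := hx01
    have h02 : x0 ≠ x2 := fun h => hx0c (h ▸ hx2c)
    have h03 : x0 ≠ x3 := fun h => hx0c (h ▸ hx3c)
    have h04 : x0 ≠ x4 := fun h => hx0d (h ▸ hx4d)
    have h12 : x1 ≠ x2 := fun h => hx1c (h ▸ hx2c)
    have h13 : x1 ≠ x3 := fun h => hx1c (h ▸ hx3c)
    have h14 : x1 ≠ x4 := fun h => hx1d (h ▸ hx4d)
    have h23 : x2 ≠ x3 := fun h => hx2d (h ▸ hx3d)
    have h24 : x2 ≠ x4 := fun h => hx2d (h ▸ hx4d)
    have h34 : x3 ≠ x4 := hx43.symm
    intro i j hij
    fin_cases i <;> fin_cases j <;> simp [X, h01, h02, h03, h04, h12, h13, h14, h23, h24, h34,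
      h01.symm, h02.symm, h03.symm, h04.symm, h12.symm, h13.symm, h14.symm, h23.symm, h24.symm,
      h34.symm] at hij ⊢
  -- path vertices lie only in the expected edges
  have hK1 : ∀ (i : Fin 4) (j : Fin 5), X j ∈ e i → j = i.castSucc ∨ j = i.succ := by
    intro i j hj
    fin_cases i <;> fin_cases j <;> simp [X, e, hx0b, hx0c, hx0d, hx1c, hx1d, hx2a, hx2d, hx3a,
      hx3b, hx4a, hx4b, hx4c] at hj ⊢
  have hK2 : ∀ i j : Fin 4, i ≠ j → ∀ v, v ∈ e i → v ∈ e j →
      v = X i.castSucc ∨ v = X i.succ := by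
    have q1 : ∀ v, v ∈ a → v ∈ b → v = x1 := fun v h h' => huniq a ha b hb hab v x1 h h' hx1a hx1b
    have q2 : ∀ v, v ∈ b → v ∈ c → v = x2 := fun v h h' => huniq b hb c hc hbc v x2 h h' hx2b hx2c
    have q3 : ∀ v, v ∈ c → v ∈ d → v = x3 := fun v h h' => huniq c hc d hd hcd v x3 h h' hx3c hx3d
    intro i j hij v hi hj
    fin_cases i <;> fin_cases j <;> simp [X, e] at hij hi hj ⊢
    · exact Or.inr (q1 v hi hj)
    · exact absurd hj (hac' hi)
    · exact absurd hj (had' hi)
    · exact Or.inl (q1 v hj hi)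
    · exact Or.inr (q2 v hi hj)
    · exact absurd hj (hbd' hi)
    · exact absurd hi (hac' hj)
    · exact Or.inl (q2 v hj hi)
    · exact Or.inr (q3 v hi hj)
    · exact absurd hi (had' hj)
    · exact absurd hi (hbd' hj)
    · exact Or.inl (q3 v hj hi)
  -- the remaining vertices of the edges
  have hR : ∀ i : Fin 4, (e i \ {X i.castSucc, X i.succ}).card = r - 2 := by
    intro i
    have hne : X i.castSucc ≠ X i.succ := fun h => by
      have := hXinj h
      exact absurd this (Fin.castSucc_lt_succ (i := i)).ne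
    rw [card_sdiff_of_subset, hU _ (heE i), card_pair hne]
    intro z hz
    rw [mem_insert, mem_singleton] at hz
    rcases hz with rfl | rfl
    · exact hXl i
    · exact hXr i
  let g : ∀ i : Fin 4, Fin (r - 2) ≃ ↥(e i \ {X i.castSucc, X i.succ}) := fun i =>
    ((e i \ {X i.castSucc, X i.succ}).equivFinOfCardEq (hR i)).symm
  have hg : ∀ i j, ((g i j : V) ∈ e i ∧ (g i j : V) ≠ X i.castSucc ∧ (g i j : V) ≠ X i.succ) := by
    intro i j
    have := (g i j).2
    rw [mem_sdiff, mem_insert, mem_singleton, not_or] at this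
    exact this
  refine ⟨Sum.elim X fun p => (g p.1 p.2 : V), ?_, ?_⟩
  · rintro (i | ⟨i, j⟩) (i' | ⟨i', j'⟩) h
    · simp only [Sum.elim_inl] at h
      rw [hXinj h]
    · exfalso
      simp only [Sum.elim_inl, Sum.elim_inr] at h
      obtain ⟨h7, h8, h9⟩ := hg i' j'
      rw [← h] at h7 h8 h9
      rcases hK1 i' i h7 with rfl | rfl
      · exact h8 rfl
      · exact h9 rfl
    · exfalso
      simp only [Sum.elim_inl, Sum.elim_inr] at h
      obtain ⟨h7, h8, h9⟩ := hg i j
      rw [h] at h7 h8 h9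
      rcases hK1 i i' h7 with rfl | rfl
      · exact h8 rfl
      · exact h9 rfl
    · simp only [Sum.elim_inr] at h
      by_cases hii : i = i'
      · subst hii
        have := (g i).injective (Subtype.ext h)
        rw [this]
      · exfalso
        obtain ⟨h7, h8, h9⟩ := hg i j
        have h10 := (hg i' j').1
        rw [← h] at h10
        rcases hK2 i i' hii _ h7 h10 with h11 | h11
        · exact h8 h11
        · exact h9 h11
  · intro i
    have : (pathEdge r i).image (Sum.elim X fun p => (g p.1 p.2 : V)) = e i := by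
      ext v
      simp only [pathEdge, mem_image, mem_union, mem_insert, mem_singleton, mem_univ, true_and]
      constructor
      · rintro ⟨w, (rfl | rfl) | ⟨j, rfl⟩, rfl⟩
        · exact hXl i
        · exact hXr i
        · exact (hg i j).1
      · intro hv
        by_cases hv1 : v = X i.castSucc
        · exact ⟨_, Or.inl (Or.inl rfl), hv1.symm⟩
        by_cases hv2 : v = X i.succ
        · exact ⟨_, Or.inl (Or.inr rfl), hv2.symm⟩
        refine ⟨_, Or.inr ⟨(g i).symm ⟨v, ?_⟩, rfl⟩, ?_⟩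
        · rw [mem_sdiff, mem_insert, mem_singleton, not_or]
          exact ⟨hv, hv1, hv2⟩
        · simp
    rw [this]; exact heE i

theorem card_le {r n : ℕ} (hr : 2 ≤ r) (hn : Fintype.card V = n) {E : Finset (Finset V)}
    (hU : Uniform r E) (hL : Linear E) (hP : ¬ ContainsPath r E) :
    r * E.card ≤ (r + 1) * n := by
  have h1 := bound hr E hU hL (fun h => hP (containsPath_of_hasP4 hr hU hL h))
  refine h1.trans (Nat.mul_le_mul_left _ ?_)
  rw [← hn]; exact card_le_univ _

theorem steiner_of_eq {r n : ℕ} (hr : 2 ≤ r) (hn : Fintype.card V = n) {E : Finset (Finset V)}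
    (hU : Uniform r E) (hL : Linear E) (hP : ¬ ContainsPath r E)
    (heq : r * E.card = (r + 1) * n) : IsSteinerUnion r E := by
  have hP' : ¬ HasP4 (fun e f : Finset V => ¬ Disjoint e f) E :=
    fun h => hP (containsPath_of_hasP4 hr hU hL h)
  have h1 := bound hr E hU hL hP'
  have h2 : (cov E).card ≤ n := by rw [← hn]; exact card_le_univ _
  have h3 : (cov E).card = n := by
    refine le_antisymm h2 ?_
    rw [heq] at h1
    exact Nat.le_of_mul_le_mul_left h1 (by omega)
  have h4 : cov E = univ := by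
    rw [← card_eq_iff_eq_univ, h3, hn]
  obtain ⟨P, hP1, hP2, hP3, hP4⟩ := structure_of_eq hr E hU hL hP' (by rw [h3]; exact heq)
  refine ⟨Finpartition.mk P ?_ ?_ ?_, ?_, hP4⟩
  · rw [supIndep_iff_pairwiseDisjoint]; exact hP1
  · rw [sup_eq_biUnion, hP2, h4]
  · intro h5
    have := (hP3 _ h5).1
    rw [bot_eq_empty, card_empty] at this
    have : 0 < r ^ 2 := by positivity
    omega
  · intro B hB
    refine ⟨(hP3 B hB).1, fun x hx y hy hxy => ?_⟩
    obtain ⟨e, he, hxe, hye⟩ := (hP3 B hB).2 x hx y hy hxy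
    refine ⟨e, ⟨he, ?_, hxe, hye⟩, ?_⟩
    · obtain ⟨B', hB', heB'⟩ := hP4 e he
      have : B = B' := by
        by_contra hne
        exact disjoint_left.1 (hP1 hB hB' hne) hx (heB' hxe)
      rw [this]; exact heB'
    · rintro f ⟨hf, _, hxf, hyf⟩
      by_contra hne
      have h5 := hL f hf e he hne
      have h6 : ({x, y} : Finset V) ⊆ f ∩ e := by
        intro z hz
        rw [mem_insert, mem_singleton] at hz
        rcases hz with rfl | rfl
        · exact mem_inter.2 ⟨hxf, hxe⟩
        · exact mem_inter.2 ⟨hyf, hye⟩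
      have h7 := card_le_card h6
      rw [card_pair hxy] at h7
      omega

theorem eq_of_steiner {r n : ℕ} (hr : 2 ≤ r) (hn : Fintype.card V = n) {E : Finset (Finset V)}
    (hU : Uniform r E) (hL : Linear E) (h : IsSteinerUnion r E) :
    r * E.card = (r + 1) * n := by
  obtain ⟨P, h1, h2⟩ := h
  have h3 : (E.biUnion fun e => e.offDiag) = P.parts.biUnion fun B => B.offDiag := by
    ext ⟨x, y⟩
    simp only [mem_biUnion, mem_offDiag]
    constructor
    · rintro ⟨e, he, hx, hy, hxy⟩
      obtain ⟨B, hB, heB⟩ := h2 e he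
      exact ⟨B, hB, heB hx, heB hy, hxy⟩
    · rintro ⟨B, hB, hx, hy, hxy⟩
      obtain ⟨e, ⟨he, _, hxe, hye⟩, _⟩ := (h1 B hB).2 x hx y hy hxy
      exact ⟨e, he, hxe, hye, hxy⟩
  have h4 := card_biUnion_offDiag hU hL
  have h5 : (P.parts.biUnion fun B => B.offDiag).card = P.parts.card * (r ^ 2 * r ^ 2 - r ^ 2) := by
    rw [card_biUnion]
    · calc ∑ B ∈ P.parts, B.offDiag.card = ∑ _B ∈ P.parts, (r ^ 2 * r ^ 2 - r ^ 2) :=
            sum_congr rfl fun B hB => by rw [offDiag_card, (h1 B hB).1]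
        _ = _ := by rw [sum_const, smul_eq_mul]
    · intro B hB B' hB' hne
      rw [Function.onFun, disjoint_left]
      rintro ⟨x, y⟩ h6 h7
      rw [mem_offDiag] at h6 h7
      exact disjoint_left.1 (P.disjoint hB hB' hne) h6.1 h7.1
  have h6 : n = P.parts.card * r ^ 2 := by
    have := P.sum_card_parts
    rw [card_univ, hn] at this
    rw [← this]
    calc ∑ B ∈ P.parts, B.card = ∑ _B ∈ P.parts, r ^ 2 := sum_congr rfl fun B hB => (h1 B hB).1
      _ = _ := by rw [sum_const, smul_eq_mul]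
  rw [h3, h5] at h4
  have e1 : r * r - r = r * (r - 1) := by rw [Nat.mul_sub, mul_one]
  have e2 : r ^ 2 * r ^ 2 - r ^ 2 = r * (r - 1) * (r * (r + 1)) := by
    obtain ⟨s, rfl⟩ : ∃ s, r = s + 1 := ⟨r - 1, by omega⟩
    rw [Nat.add_sub_cancel]
    rw [Nat.sub_eq_iff_eq_add (by nlinarith [sq_nonneg s])]
    ring
  rw [e1, e2] at h4
  have h7 : 0 < r * (r - 1) := Nat.mul_pos (by omega) (by omega)
  have h8 : E.card = P.parts.card * (r * (r + 1)) := by
    refine Nat.eq_of_mul_eq_mul_left h7 ?_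
    rw [mul_comm, ← h4]; ring
  rw [h8, h6]; ring

/-- The result: the bound on the linear Turán number, and the description of the hypergraphs
attaining it. -/
theorem result :
    (∀ r n : ℕ, 3 ≤ r → 1 ≤ n → (exLin r n : ℚ) ≤ (r + 1) * n / r) ∧
    (∀ r n : ℕ, 3 ≤ r → 1 ≤ n → ∀ E : Finset (Finset (Fin n)),
      Uniform r E → Linear E → ¬ ContainsPath r E →
        (E.card : ℚ) ≤ (r + 1) * n / r ∧
        ((E.card : ℚ) = (r + 1) * n / r ↔ IsSteinerUnion r E)) := by
  have key : ∀ r n : ℕ, 3 ≤ r → ∀ E : Finset (Finset (Fin n)),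
      Uniform r E → Linear E → ¬ ContainsPath r E → (E.card : ℚ) ≤ (r + 1) * n / r := by
    intro r n hr E hU hL hP
    have h1 := card_le (by omega) (Fintype.card_fin n) hU hL hP
    have h2 : (r : ℚ) * E.card ≤ (r + 1) * n := by exact_mod_cast h1
    have h3 : (0 : ℚ) < r := by
      have : 0 < r := by omega
      exact_mod_cast this
    rw [le_div_iff₀ h3]
    linarith
  refine ⟨?_, ?_⟩
  · intro r n hr _
    have hne : {m | ∃ E : Finset (Finset (Fin n)),
        Uniform r E ∧ Linear E ∧ ¬ ContainsPath r E ∧ E.card = m}.Nonempty := by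
      refine ⟨0, ∅, by simp [Uniform], by simp [Linear], ?_, by simp⟩
      rintro ⟨φ, _, h⟩
      exact absurd (h 0) (by simp)
    have hbdd : BddAbove {m | ∃ E : Finset (Finset (Fin n)),
        Uniform r E ∧ Linear E ∧ ¬ ContainsPath r E ∧ E.card = m} := by
      refine ⟨(r + 1) * n, ?_⟩
      rintro m ⟨E, hU, hL, hP, rfl⟩
      have h1 := card_le (by omega) (Fintype.card_fin n) hU hL hP
      exact (Nat.le_mul_of_pos_left _ (by omega)).trans h1
    obtain ⟨E, hU, hL, hP, h⟩ := Nat.sSup_mem hne hbdd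
    rw [exLin, ← h]
    exact key r n hr E hU hL hP
  · intro r n hr _ E hU hL hP
    refine ⟨key r n hr E hU hL hP, ?_⟩
    have h3 : (r : ℚ) ≠ 0 := by
      have : r ≠ 0 := by omega
      exact_mod_cast this
    have h4 : (E.card : ℚ) = (r + 1) * n / r ↔ r * E.card = (r + 1) * n := by
      rw [eq_div_iff h3]
      constructor
      · intro h
        have : ((r * E.card : ℕ) : ℚ) = (((r + 1) * n : ℕ) : ℚ) := by
          push_cast; rw [← h]; ring
        exact_mod_cast this
      · intro h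
        have : ((r * E.card : ℕ) : ℚ) = (((r + 1) * n : ℕ) : ℚ) := by rw [h]
        push_cast at this
        rw [← this]; ring
    rw [h4]
    exact ⟨steiner_of_eq (by omega) (Fintype.card_fin n) hU hL hP,
      eq_of_steiner (by omega) (Fintype.card_fin n) hU hL⟩

end Pool.Agent.Results.MP_d43ba4_co.PathFourEdges
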